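import Pool.Agent.helper37.ND.Spec
import Pool.Agent.helper40.LZ.ZL3

/-!
# Theorem ND, row GRT: rationality of `mt (cz Z) (st Z t ν θ) θ'`
-/

set_option autoImplicit false

namespace Pool.Agent.ND

open Pool.Agent.helper58.DC Pool.Agent.DI Pool.Agent.GR Pool.Agent.OB Pool.Agent.DR Pool.Agent.FI Pool.Agent.FI3 Pool.Agent.FI4 Pool.Agent.FI4I Pool.Agent.LE Pool.Agent.L5 Pool.Agent.NAB

theorem GRT_bij (G : Type) [Group G] [Finite G] (K : Subgroup G) (s : ℕ) (hs : s.Coprime (Nat.card G)) :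
    Set.BijOn (fun v : G => v ^ s) (K : Set G) (K : Set G) := by
  refine ⟨?_, ?_, ?_⟩
  · intro v hv
    exact K.pow_mem hv s
  · intro v _ w _ hvw
    exact (Nat.Coprime.pow_left_bijective hs.symm).1 hvw
  · intro w hw
    obtain ⟨m, hm⟩ := exists_pow_eq_self_of_coprime (x := w) (n := s) (hs.coprime_dvd_right (orderOf_dvd_natCard w))
    have hm' : (w ^ m) ^ s = w := by rw [← pow_mul, mul_comm, pow_mul, hm]
    exact ⟨w ^ m, K.pow_mem hw m, hm'⟩

theorem GRT (hGLP : GLP_stmt) (hZLM : ZLM_stmt) : GRT_stmt := by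
  classical
  intro p e t hp G _ _ hT Z ν θ hθ θ' hθ'
  have _ := hGLP
  have hn : 0 < Nat.card G := Nat.card_pos
  have hnn : NeZero (Nat.card G) := ⟨hn.ne'⟩
  obtain ⟨ζ, hζ⟩ : ∃ ζ : ℂ, IsPrimitiveRoot ζ (Nat.card G) := ⟨_, Complex.isPrimitiveRoot_exp _ hn.ne'⟩
  obtain ⟨-, -, -, -, -, -, l7⟩ := hZLM p e t hp G hT Z ν
  have hlam : ∀ g, lam Z t ν g ^ Nat.card G = 1 := by
    intro g
    unfold lam
    split_ifs with h
    · rw [← Units.val_pow_eq_pow_val, ← map_pow]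
      have h1 : (⟨g ^ t, h⟩ : Z) ^ Nat.card G = 1 := by
        apply Subtype.ext
        exact pow_card_eq_one'
      rw [h1, map_one, Units.val_one]
    · exact one_pow _
  have hP : ∀ v ∈ cz Z, ∃ P : Polynomial ℤ, ∀ s : ℕ, s.Coprime (Nat.card G) →
      st Z t ν θ (v ^ s) * θ' (v ^ s)⁻¹ = Polynomial.aeval (ζ ^ s) P := by
    intro v hv
    obtain ⟨P, hP⟩ := ZL3_char G (cz Z) θ hθ v hv ζ hζ
    obtain ⟨P', hP'⟩ := ZL3_char G (cz Z) θ' hθ' v⁻¹ ((cz Z).inv_mem hv) ζ hζ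
    obtain ⟨i, -, hi⟩ := hζ.eq_pow_of_pow_eq_one (hlam v)
    refine ⟨Polynomial.X ^ i * P * P', fun s hs => ?_⟩
    rw [map_mul, map_mul, ← hP s, ← hP' s, inv_pow, map_pow, Polynomial.aeval_X]
    show lam Z t ν (v ^ s) * θ (v ^ s) * θ' (v ^ s)⁻¹ = _
    rw [l7 s hs v, ← hi, ← pow_mul, ← pow_mul, mul_comm i s]
  choose! P hP using hP
  have hSfin : ((cz Z : Subgroup G) : Set G).Finite := Set.toFinite _
  set Q : Polynomial ℤ := ∑ v ∈ hSfin.toFinset, P v with hQ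
  set N : ℂ := ∑ᶠ v ∈ ((cz Z : Subgroup G) : Set G), st Z t ν θ v * θ' v⁻¹ with hN
  have key : ∀ s : ℕ, s.Coprime (Nat.card G) → Polynomial.aeval (ζ ^ s) Q = N := by
    intro s hs
    have h1 : ∑ᶠ v ∈ ((cz Z : Subgroup G) : Set G), st Z t ν θ (v ^ s) * θ' (v ^ s)⁻¹ = N := by
      rw [hN]
      exact finsum_mem_eq_of_bijOn (fun v : G => v ^ s) (GRT_bij G (cz Z) s hs) (fun v _ => rfl)
    rw [← h1, finsum_mem_eq_finite_toFinset_sum _ hSfin, hQ, map_sum]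
    apply Finset.sum_congr rfl
    intro v hv
    rw [Set.Finite.mem_toFinset] at hv
    exact (hP v hv s hs).symm
  obtain ⟨r, hr⟩ := ZL3_sum (Nat.card G) hn Q
  have hsum : ∑ μ ∈ primitiveRoots (Nat.card G) ℂ, Polynomial.aeval μ Q = (Nat.totient (Nat.card G) : ℂ) * N := by
    have h1 : ∀ μ ∈ primitiveRoots (Nat.card G) ℂ, Polynomial.aeval μ Q = N := by
      intro μ hμ
      rw [mem_primitiveRoots hn] at hμ
      obtain ⟨s, -, hs, hsμ⟩ := hζ.isPrimitiveRoot_iff.1 hμ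
      rw [← hsμ]
      exact key s hs
    rw [Finset.sum_congr rfl h1, Finset.sum_const, Complex.card_primitiveRoots, nsmul_eq_mul]
  have htot : (Nat.totient (Nat.card G) : ℂ) ≠ 0 := by
    exact_mod_cast (Nat.totient_pos.2 hn).ne'
  refine ⟨r / Nat.totient (Nat.card G) / Nat.card (cz Z), ?_⟩
  unfold Pool.Agent.FI.mt
  push_cast
  rw [← hr, hsum, mul_div_cancel_left₀ _ htot]

end Pool.Agent.ND
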